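import Mathlib
import Pool.Agent.H14.OddCover

set_option autoImplicit false

namespace Pool.Agent.Results.MP_a03d73_co.Counter

open Pool.Agent.H14.OddCover in
theorem result : ∃ (n : ℕ) (M : Finset (Fin n → ZMod 2)), 1 ≤ n ∧ 0 ∉ M ∧ Eulerian M ∧
    arb M = 3 ∧ c2 M = 4 ∧
    ∀ (t : ℕ) (C : Fin t → Finset (Fin n → ZMod 2)), IsOddCover M C → arb M < t :=
  ⟨8, M, by norm_num, M_zero, M_eul, arb_eq, c2_eq, fun t C hC => by
    rw [arb_eq]
    exact lower C hC⟩

end Pool.Agent.Results.MP_a03d73_co.Counter
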